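import Pool.Agent.H26.TG.StDefs

/-!
# Finite presentability of the Torelli group and of its unipotent enlargements

`MP_c61994_al`, partial result on Q1. `Surf g` is the surface group of genus `g` (generators `a_i = gen (inl i)`,
`b_i = gen (inr i)`, relator the product of the commutators `[a_i, b_i]`), `Out g` the group of outer automorphisms,
`Tor g` the subgroup of the classes acting trivially on the abelianisation, as in the frozen statement `S03007`;
`out φ` is the outer class of `φ`. `Flag g k` is the subgroup of the abelianisation generated by the first `k` elements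
of the symplectic basis `b_0, …, b_(g-1), a_(g-1), …, a_0`. `fixing g Y` is the group of the classes which fix the
homology classes of the elements of `Y`.

For `g ≥ 2`, every group `D` of outer automorphisms which contains the Torelli group and lowers the flag by two steps is
finitely presented if and only if the Torelli group is. This includes the pointwise stabilisers of the
sets `X` containing all `b_i` and `a_(g-1)` (rank `g + 1`, …, `2 g`), and the group generated by the Torelli
group and the Dehn twist `a_i ↦ a_i b_i`, which has infinite order modulo the Torelli group.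
-/

set_option autoImplicit false

namespace Pool.Agent.Results.MP_c61994_al.UnipotentEnlargement

open Pool.Agent.H26.TG Pool.Agent.H26.TG.St

theorem result (g : ℕ) (hg : 2 ≤ g) :
    (∀ D : Subgroup (Out g), Tor g ≤ D → Lowers g D → (FP D ↔ FP (Tor g))) ∧
    (∀ X : Set (Fin g ⊕ Fin g), (∀ i : Fin g, Sum.inr i ∈ X) →
      (∀ i : Fin g, (i : ℕ) + 1 = g → Sum.inl i ∈ X) →
      (FP (fixing g (gen '' X)) ↔ FP (Tor g))) ∧
    (∀ i : Fin g, (i : ℕ) + 1 < g → ∃ τ : Auto g, IsTwist i τ ∧
      (∀ m : ℤ, out τ ^ m ∈ Tor g → m = 0) ∧
      (FP (Tor g ⊔ Subgroup.zpowers (out τ)) ↔ FP (Tor g))) := by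
  have ht : Tor g = torelli (SG g) := by
    show (Subgroup.closure {φ : MulAut (SG g) | ∀ x ∈ (Set.univ : Set (SG g)),
      Abelianization.of (φ x) = Abelianization.of x}).map cls = _
    simp only [Set.mem_univ, true_implies]
    rfl
  have hf : ∀ X : Set (Fin g ⊕ Fin g), fixing g (gen '' X) = fixG g X := by
    intro X
    show (Subgroup.closure {φ : MulAut (SG g) | ∀ x ∈ ((PresentedGroup.of) '' X : Set (SG g)),
      Abelianization.of (φ x) = Abelianization.of x}).map cls = _
    simp only [Set.forall_mem_image]
    rfl
  rw [ht]
  refine ⟨fun D h1 h2 => main (by omega) D h1 h2, fun X hb ha => ?_, fun i hi => ?_⟩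
  · rw [hf]
    exact main_lev (by omega) _ (torelli_le_fixG X) (fixG_le (by omega) hb ha)
  · obtain ⟨τ, h1, h2, h3, h4⟩ := twist hg i hi
    exact ⟨τ, ⟨h1, h2⟩, h3, h4⟩

end Pool.Agent.Results.MP_c61994_al.UnipotentEnlargement
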